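import Pool.Agent.Work.MP_055a27_an.Sg.Stmts

/-!
# The case `lam < b` for all weights: definitions and statements of the items

`KK U b p q` is the infimum of `∫ N_b(F) ^ p U` over the analytic functions `F` with `|F| ≥ 1` at
the point `q` of the half plane. For `0 < lam < b` and `1 < p` we show that `Star lam b p U` holds
if and only if there is a constant `C` with
`U(E) (log (e + y / |E|)) ^ ((p - 1) / 2) ≤ C KK(x, y)` for all `(x, y)` and all measurable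
`E ⊆ [x - lam y, x + lam y]`.
-/

open MeasureTheory Set Filter Topology Complex Metric
open scoped ENNReal NNReal

namespace Pool.Agent.Work.MP_055a27_an.Kp

open Crit (NTc Nice NI)
open Sg (An SF)
open Fn (StarC)

/-! ### Definitions -/

/-- The shadow of aperture `a` of the point `q`. -/
def Sd (a : ℝ) (q : ℝ × ℝ) : Set ℝ := Icc (q.1 - a * q.2) (q.1 + a * q.2)

/-- The complex number of a pair. -/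
noncomputable def pt (q : ℝ × ℝ) : ℂ := (q.1 : ℂ) + q.2 * I

/-- The extremal problem at the point `q`. -/
noncomputable def KK (U : ℝ → ℝ) (b p : ℝ) (q : ℝ × ℝ) : ℝ≥0∞ :=
  ⨅ (F : ℂ → ℂ) (_ : An F ∧ 1 ≤ ‖F (pt q)‖), NI U F b p

/-- The function `log (e + t)`. -/
noncomputable def LE (t : ℝ) : ℝ := Real.log (Real.exp 1 + t)

/-- The condition with exponent `s` and constant `C`. -/
def NS (lam b p s : ℝ) (C : ℝ≥0) (U : ℝ → ℝ) : Prop :=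
  ∀ q : ℝ × ℝ, 0 < q.2 → ∀ E : Set ℝ, MeasurableSet E → E ⊆ Sd lam q →
    wm U E * ENNReal.ofReal (LE (q.2 / volume.real E) ^ s) ≤ C * KK U b p q

/-- The standing hypotheses of the sufficiency part. -/
def Hyp (lam b p s : ℝ) (U : ℝ → ℝ) : Prop :=
  0 < lam ∧ lam < b ∧ 1 < p ∧ 0 < s ∧ IsWeight U ∧ ∃ C : ℝ≥0, NS lam b p s C U

/-- The apertures. -/
noncomputable def ap (lam b : ℝ) (n : ℕ) : ℝ := b - (b - lam) / 2 ^ n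

/-- The relative sizes of the shifts. -/
noncomputable def ep (lam b : ℝ) (n : ℕ) : ℝ := (b - lam) / (4 * b) / 2 ^ n

/-- The lowered point. -/
def dn (ε : ℝ) (q : ℝ × ℝ) : ℝ × ℝ := (q.1, (1 - ε) * q.2)

/-- The high points, fixed aperture. -/
def HH (U : ℝ → ℝ) (lam b p M : ℝ) : Set (ℝ × ℝ) :=
  {q | 0 < q.2 ∧ ENNReal.ofReal (Real.exp M) * wm U (Sd lam q) ≤ KK U b p q}

/-- The low points for the aperture number `n`. -/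
def LW (U : ℝ → ℝ) (lam b p : ℝ) (n : ℕ) (m : ℝ) : Set (ℝ × ℝ) :=
  {q | 0 < q.2 ∧ KK U b p (dn (ep lam b n) q) <
    ENNReal.ofReal (Real.exp m) * wm U (Sd (ap lam b n) q)}

/-- The high points for the aperture number `n`. -/
def HW (U : ℝ → ℝ) (lam b p : ℝ) (n : ℕ) (m : ℝ) : Set (ℝ × ℝ) :=
  {q | 0 < q.2 ∧ ENNReal.ofReal (Real.exp m) * wm U (Sd (ap lam b n) q) ≤
    KK U b p (dn (ep lam b n) q)}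

/-- A distance, at least the height of each of the two points. -/
def Rr (w q : ℝ × ℝ) : ℝ := w.2 + |q.1 - w.1| + |q.2 - w.2|

/-- The weight which measures the distance to the set `H`. -/
noncomputable def rh (H : Set (ℝ × ℝ)) (ε : ℝ) (q : ℝ × ℝ) : ℝ≥0∞ :=
  ⨆ (w : ℝ × ℝ) (_ : w ∈ H ∧ 0 < w.2 ∧ w.2 < 4 * q.2 / ε), ENNReal.ofReal ((w.2 / Rr w q) ^ 3)

/-- The integral over the part of the cone with vertex `t` up to the height `h`. -/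
noncomputable def ZZ (a : ℝ) (σ : ℝ × ℝ → ℝ≥0∞) (t h : ℝ) : ℝ≥0∞ :=
  ∫⁻ q in cone a t ∩ {q : ℝ × ℝ | q.2 ≤ h}, σ q * ENNReal.ofReal (1 / q.2 ^ 2)

/-- The weight restricted to the low points. -/
noncomputable def sg (U : ℝ → ℝ) (lam b p M : ℝ) (n : ℕ) (m : ℝ) : ℝ × ℝ → ℝ≥0∞ :=
  (LW U lam b p n m).indicator (rh (HH U lam b p M) (ep lam b n))

/-- The function `y |g|`. -/
noncomputable def DD (g : ℂ → ℂ) (q : ℝ × ℝ) : ℝ≥0∞ := ENNReal.ofReal (q.2 * ‖g (pt q)‖)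

/-- Analytic above the line of height `- t0`, of polynomial growth. -/
def An2 (t0 : ℝ) (g : ℂ → ℂ) : Prop := 0 < t0 ∧ (∀ w : ℂ, -t0 < w.im → DifferentiableAt ℂ g w) ∧
  ∃ A : ℝ, ∀ w : ℂ, -(t0 / 2) < w.im → ‖g w‖ ≤ A * (1 + ‖w‖) ^ 2

/-- The function `y |g|` is dominated by `Nf` on the cones. -/
def Dm (b Cb t0 : ℝ) (g : ℂ → ℂ) (Nf : ℝ → ℝ≥0∞) : Prop := An2 t0 g ∧ Measurable Nf ∧
  ∀ a : ℝ, 0 < a → a < b → ∀ q : ℝ × ℝ, 0 < q.2 → ∀ t ∈ Sd a q,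
    DD g q ≤ ENNReal.ofReal (Cb / (b - a) * (q.2 / (q.2 + t0))) * Nf t

/-- The main sums. -/
noncomputable def PH (U : ℝ → ℝ) (lam b p M : ℝ) (g : ℂ → ℂ) (R : ℝ) (n : ℕ) : ℝ≥0∞ :=
  ∫⁻ q in {q : ℝ × ℝ | 0 < q.2}, rh (HH U lam b p M) (ep lam b n) q * (DD g q) ^ p *
    ENNReal.ofReal (min 1 (R / q.2)) * wm U (Sd (ap lam b n) q) * ENNReal.ofReal (1 / q.2 ^ 2)

/-! ### Foundations -/

/-- 1 Bas: basic facts. -/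
def StBas : Prop := ∀ (b p : ℝ) (U : ℝ → ℝ), 0 < b → 0 < p → IsWeight U →
  (∀ q : ℝ × ℝ, 0 < q.2 → wm U (Sd b q) ≤ KK U b p q) ∧
  (∀ q q' : ℝ × ℝ, 0 < q.2 → |q'.1 - q.1| ≤ b * (q'.2 - q.2) → KK U b p q ≤ KK U b p q') ∧
  (∀ F : ℂ → ℂ, An F → ∀ q : ℝ × ℝ, 0 < q.2 →
    ENNReal.ofReal (‖F (pt q)‖ ^ p) * KK U b p q ≤ NI U F b p) ∧
  (∀ c : ℝ≥0∞, IsOpen {q : ℝ × ℝ | 0 < q.2 ∧ KK U b p q < c}) ∧
  (∀ a : ℝ, 0 ≤ a → ContinuousOn (fun q : ℝ × ℝ => wm U (Sd a q)) {q | 0 < q.2})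

/-- 2 Mea: measurability and monotonicity. -/
def StMea : Prop :=
  (∀ (H : Set (ℝ × ℝ)) (ε : ℝ), 0 < ε → Measurable (rh H ε)) ∧
  (∀ (H : Set (ℝ × ℝ)) (ε : ℝ) (q : ℝ × ℝ), rh H ε q ≤ 1) ∧
  (∀ (H : Set (ℝ × ℝ)) (ε ε' : ℝ) (q : ℝ × ℝ), 0 < ε' → ε' ≤ ε → 0 < q.2 →
    rh H ε q ≤ rh H ε' q) ∧
  ∀ (lam b p : ℝ) (U : ℝ → ℝ), 0 < lam → lam < b → 0 < p → IsWeight U → ∀ (n : ℕ) (m : ℝ),
    MeasurableSet (HH U lam b p m) ∧ MeasurableSet (LW U lam b p n m) ∧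
    MeasurableSet (HW U lam b p n m) ∧
    (∀ M : ℝ, M ≤ m → HW U lam b p n m ⊆ HH U lam b p M ∧ HH U lam b p m ⊆ HH U lam b p M) ∧
    LW U lam b p n m ∪ HW U lam b p n m = {q | 0 < q.2}

/-- 3 Gen: the condition for the shadows of larger aperture. -/
def StGen : Prop := ∀ lam b s : ℝ, 0 < lam → lam < b → 0 < s → ∃ (C1 : ℝ) (N : ℕ), 1 ≤ C1 ∧
  ∀ (p : ℝ) (U : ℝ → ℝ) (C : ℝ≥0), 0 < p → IsWeight U → NS lam b p s C U →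
  ∀ a : ℝ, lam ≤ a → a < b → ∀ q : ℝ × ℝ, 0 < q.2 → ∀ E : Set ℝ, MeasurableSet E → E ⊆ Sd a q →
    wm U E * ENNReal.ofReal (LE (q.2 / volume.real E) ^ s) ≤
      C * ENNReal.ofReal (C1 / (b - a) ^ N) * KK U b p q

/-- 4 Drop: the extremal problem at lower points. -/
def StDrop : Prop := ∀ b p e : ℝ, 0 < b → 0 < p → 0 < e → e < 1 → ∃ c C : ℝ, 0 < c ∧
  c * (1 + b) ≤ 1 ∧ 1 ≤ C ∧
  ∀ (U : ℝ → ℝ) (α β η : ℝ), IsWeight U → 0 ≤ α → 0 < η → α + η ≤ β → β + η ≤ b →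
  ∀ (q : ℝ × ℝ) (x : ℝ), 0 < q.2 → |x - q.1| ≤ α * q.2 → KK U b p q ≠ ∞ →
    KK U b p (x, c * η * q.2) ≤
      ENNReal.ofReal C * (KK U b p q) ^ e * (wm U (Sd β q)) ^ (1 - e)

/-- 5 LowF: very low points below low points. -/
def StLowF : Prop := ∀ lam b p : ℝ, 0 < lam → lam < b → 0 < p → ∃ m0 : ℝ, 1 ≤ m0 ∧
  ∀ θ : ℝ, 0 < θ → ∃ (C : ℝ) (N : ℕ), 1 ≤ C ∧
  ∀ (U : ℝ → ℝ) (α β m : ℝ) (q : ℝ × ℝ), IsWeight U → lam ≤ α → α < β → β < b → 0 ≤ m →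
    0 < q.2 → 0 < wm U (Sd α q) →
    KK U b p q ≤ ENNReal.ofReal (Real.exp m) * wm U (Sd α q) →
    ∃ q' : ℝ × ℝ, 0 < q'.2 ∧ q'.2 ≤ q.2 ∧ Sd lam q' ⊆ Sd β q ∧ 0 < wm U (Sd lam q') ∧
      KK U b p q' ≤ ENNReal.ofReal (Real.exp m0) * wm U (Sd lam q') ∧
      (β - α) ^ N * Real.exp (-(θ * m)) / C * q.2 ≤ q'.2

/-! ### The high points are sparse -/

/-- 6 TopA: a large set below a very low point which avoids the shadows of the high points. -/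
def StTopA : Prop := ∀ (lam b p s : ℝ) (U : ℝ → ℝ), Hyp lam b p s U → ∀ m0 : ℝ, ∃ M δ η : ℝ,
  0 < δ ∧ 0 < η ∧ η ≤ 1 ∧ ∀ q : ℝ × ℝ, 0 < q.2 → 0 < wm U (Sd lam q) →
    KK U b p q ≤ ENNReal.ofReal (Real.exp m0) * wm U (Sd lam q) →
    ∃ F : Set ℝ, IsClosed F ∧ F ⊆ Sd lam q ∧ ENNReal.ofReal (δ * q.2) ≤ volume F ∧
      ∀ w ∈ HH U lam b p M, w.2 ≤ η * q.2 → Disjoint (Sd (lam / 2) w) F

/-- 7 Mar: the Marcinkiewicz integral. -/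
def StMar : Prop := ∀ a A : ℝ, 0 < a → 0 < A → ∃ C : ℝ, 1 ≤ C ∧
  ∀ (F : Set ℝ) (q : ℝ × ℝ) (H : Set (ℝ × ℝ)) (η ε : ℝ), IsClosed F → F ⊆ Sd a q → 0 < q.2 →
    0 < η → η ≤ 1 → 0 < ε → ε ≤ 1 →
    (∀ w ∈ H, 0 < w.2 → w.2 ≤ η * q.2 → Disjoint (Sd (a / 2) w) F) →
    ∫⁻ t in F, ZZ A (rh H ε) t (η * ε / 4 * q.2) ≤ ENNReal.ofReal (C / ε ^ 2 * q.2)

/-- 8 Top: few high points below a very low point. -/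
def StTop : Prop := ∀ (lam b p s : ℝ) (U : ℝ → ℝ), Hyp lam b p s U → ∀ m0 : ℝ,
  ∃ M δ η C : ℝ, 0 < δ ∧ 0 < η ∧ η ≤ 1 ∧ 1 ≤ C ∧ ∀ (ε : ℝ) (q : ℝ × ℝ), 0 < ε → ε ≤ 1 →
    0 < q.2 → 0 < wm U (Sd lam q) →
    KK U b p q ≤ ENNReal.ofReal (Real.exp m0) * wm U (Sd lam q) →
    ENNReal.ofReal (δ * q.2) ≤ volume {t ∈ Sd lam q |
      ZZ b (rh (HH U lam b p M) ε) t (η * ε * q.2) ≤ ENNReal.ofReal (C / ε ^ 2)}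

/-- 9 PP: few high points below a low point. -/
def StPP : Prop := ∀ (lam b p s : ℝ) (U : ℝ → ℝ), Hyp lam b p s U → ∃ M0 : ℝ,
  ∀ θ : ℝ, 0 < θ → ∃ (C : ℝ) (N : ℕ), 1 ≤ C ∧ ∀ (M : ℝ) (n : ℕ) (m : ℝ), M0 ≤ M → 0 ≤ m →
    ∀ q ∈ LW U lam b p n m,
    ENNReal.ofReal (Real.exp (-(θ * m)) / (C * 2 ^ (N * n)) * q.2) ≤
      volume {t ∈ Sd b q | ZZ b (rh (HH U lam b p M) (ep lam b n)) t q.2 ≤
        ENNReal.ofReal (C * 2 ^ (N * n) * (1 + m))}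

/-- 10 Pack: from a lower bound for the good set to the Carleson packing condition. -/
def StPack : Prop := ∀ (A T δ : ℝ) (σ : ℝ × ℝ → ℝ≥0∞) (Y : Set (ℝ × ℝ)), 0 < A → 0 < T → 0 < δ →
  Measurable σ → (∀ q, q ∉ Y → σ q = 0) → (∀ q ∈ Y, 0 < q.2) →
  (∀ q ∈ Y, ENNReal.ofReal (δ * q.2) ≤
    volume {t ∈ Sd A q | ZZ A σ t q.2 ≤ ENNReal.ofReal T}) →
  ∀ z h : ℝ, 0 < h → ∫⁻ q in Icc (z - h) (z + h) ×ˢ Ioc 0 h, σ q * ENNReal.ofReal (1 / q.2) ≤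
    ENNReal.ofReal (2 * (1 + A) * T / δ * h)

/-- 11 JN: exponential integrability. -/
def StJN : Prop := ∀ A : ℝ, 0 < A → ∃ C : ℝ, 1 ≤ C ∧ ∀ (σ : ℝ × ℝ → ℝ≥0∞) (P : ℝ),
  Measurable σ → 0 < P →
  (∀ z h : ℝ, 0 < h → ∫⁻ q in Icc (z - h) (z + h) ×ˢ Ioc 0 h, σ q * ENNReal.ofReal (1 / q.2) ≤
    ENNReal.ofReal (P * h)) →
  ∀ z h l : ℝ, 0 < h → 0 ≤ l →
    volume {t ∈ Icc (z - h) (z + h) | ENNReal.ofReal l < ZZ A σ t h} ≤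
      ENNReal.ofReal (C * Real.exp (-(l / (C * P))) * h)

/-- 12 Tail: the distribution function, Lebesgue measure. -/
def StTail : Prop := ∀ (lam b p s : ℝ) (U : ℝ → ℝ), Hyp lam b p s U → ∃ M0 : ℝ,
  ∀ θ : ℝ, 0 < θ → ∃ (C : ℝ) (N : ℕ), 1 ≤ C ∧
  ∀ (M : ℝ) (n : ℕ) (m l : ℝ) (q : ℝ × ℝ), M0 ≤ M → 0 ≤ m → 0 ≤ l → 0 < q.2 →
    volume {t ∈ Sd b q | ENNReal.ofReal l < ZZ b (sg U lam b p M n m) t q.2} ≤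
      ENNReal.ofReal (C * Real.exp (-(l / (C * 2 ^ (N * n) * Real.exp (θ * m)))) * q.2)

/-- 13 Mom: the moments, weighted measure. -/
def StMom : Prop := ∀ (lam b p s : ℝ) (U : ℝ → ℝ), Hyp lam b p s U → ∃ M0 : ℝ,
  ∀ θ r : ℝ, 0 < θ → 0 < r → r < s → ∃ (C : ℝ) (N : ℕ), 1 ≤ C ∧
  ∀ (M : ℝ) (n : ℕ) (m : ℝ), M0 ≤ M → 0 ≤ m → ∀ q ∈ LW U lam b p n m,
    ∫⁻ t in Sd (ap lam b n) q, (1 + ZZ b (sg U lam b p M n m) t q.2) ^ r ∂(wm U) ≤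
      ENNReal.ofReal (C * 2 ^ (N * n) * Real.exp ((θ + r / s) * m)) *
        wm U (Sd (ap lam b n) q)

/-- 14 Term: the contribution of the low points. -/
def StTerm : Prop := ∀ (lam b p s : ℝ) (U : ℝ → ℝ), Hyp lam b p s U →
  ∃ (M0 C : ℝ) (N : ℕ), 1 ≤ C ∧
  ∀ (M : ℝ) (n : ℕ) (m : ℝ) (D : ℝ × ℝ → ℝ≥0∞) (Nf : ℝ → ℝ≥0∞), M0 ≤ M → 0 ≤ m →
    Measurable D → Measurable Nf →
    (∀ q ∈ LW U lam b p n m, ∀ t ∈ Sd (ap lam b n) q, D q ≤ Nf t) →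
    ∫⁻ q in LW U lam b p n m, rh (HH U lam b p M) (ep lam b n) q * (D q) ^ p *
        wm U (Sd (ap lam b n) q) * ENNReal.ofReal (1 / q.2 ^ 2) ≤
      ENNReal.ofReal (C * 2 ^ (N * n) * Real.exp (N * m)) * ∫⁻ t, (Nf t) ^ p ∂(wm U)

/-! ### The chain -/

/-- 15 ChA: the test function at a point. -/
def StChA : Prop := ∀ b p : ℝ, 0 < b → 1 < p → ∃ N0 : ℕ, ∀ K : ℕ, ∃ C : ℝ, 1 ≤ C ∧
  ∀ (U : ℝ → ℝ) (g : ℂ → ℂ) (t0 ε : ℝ) (q : ℝ × ℝ), IsWeight U → An2 t0 g → 0 < ε →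
    ε ≤ 1 / 2 → 0 < q.2 →
    (DD g q) ^ p * KK U b p (dn ε q) ≤ ENNReal.ofReal (C / ε ^ N0) *
      ∫⁻ w in {w : ℝ × ℝ | ε * q.2 / 2 ≤ w.2}, ENNReal.ofReal ((q.2 / Rr q w) ^ K) *
        (DD g w) ^ p * wm U (Sd (b - b * ε * q.2 / (2 * w.2)) w) *
        ENNReal.ofReal (1 / w.2 ^ 2)

/-- 16 ChB: the contribution of the high points. -/
def StChB : Prop := ∀ lam b p : ℝ, 0 < lam → lam < b → 1 < p → ∃ N1 : ℕ, ∀ K : ℕ,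
  ∃ C : ℝ, 1 ≤ C ∧
  ∀ (U : ℝ → ℝ) (g : ℂ → ℂ) (t0 R M m : ℝ) (n : ℕ), IsWeight U → An2 t0 g → 0 < R → M ≤ m →
    ∫⁻ q in HW U lam b p n m, (DD g q) ^ p * ENNReal.ofReal (min 1 (R / q.2)) *
        wm U (Sd (ap lam b n) q) * ENNReal.ofReal (1 / q.2 ^ 2) ≤
      ENNReal.ofReal (C * 2 ^ (N1 * n) * Real.exp (-m)) *
        ∑' i : ℕ, ENNReal.ofReal ((1 / 2) ^ (K * (i + 1))) * PH U lam b p M g R (n + (i + 1))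

/-- 17 Sum: the main sums. -/
def StSum : Prop := ∀ (lam b p s : ℝ) (U : ℝ → ℝ), Hyp lam b p s U → ∀ Cb : ℝ, 0 < Cb →
  ∃ (M0 C : ℝ) (N : ℕ), 1 ≤ C ∧
  ∀ (M R t0 : ℝ) (n : ℕ) (g : ℂ → ℂ) (Nf : ℝ → ℝ≥0∞), M0 ≤ M → 0 < R → Dm b Cb t0 g Nf →
    PH U lam b p M g R n ≤ ENNReal.ofReal (C * 2 ^ (N * n)) * ∫⁻ t, (Nf t) ^ p ∂(wm U)

/-! ### The high part of the area function -/

/-- 18 Hi2: the high part for `p ≤ 2`. -/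
def StHi2 : Prop := ∀ lam b p : ℝ, 0 < lam → lam < b → 1 < p → p ≤ 2 → ∃ C : ℝ, 1 ≤ C ∧
  ∀ (U : ℝ → ℝ) (g : ℂ → ℂ) (t0 R M : ℝ) (A : Set (ℝ × ℝ)), IsWeight U → An2 t0 g → 0 < R →
    MeasurableSet A → A ⊆ HH U lam b p M →
    ∫⁻ t, (∫⁻ q in cone lam t ∩ A ∩ {q : ℝ × ℝ | q.2 ≤ R},
      (DD g q) ^ 2 * ENNReal.ofReal (1 / q.2 ^ 2)) ^ (p / 2) ∂(wm U) ≤
      ENNReal.ofReal C * PH U lam b p M g R 1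

/-- 19 Hol: Hölder inequality on a cone. -/
def StHol : Prop := ∀ p r : ℝ, 2 < p → (p - 2) / 2 < r → ∃ C : ℝ, 1 ≤ C ∧
  ∀ (a t : ℝ) (A : Set (ℝ × ℝ)) (D : ℝ × ℝ → ℝ≥0∞), 0 < a → MeasurableSet A → Measurable D →
    (∫⁻ q in cone a t ∩ A, (D q) ^ 2 * ENNReal.ofReal (1 / q.2 ^ 2)) ^ (p / 2) ≤
      ENNReal.ofReal C * ∫⁻ q in cone a t ∩ A,
        (D q) ^ p * (1 + ZZ a (A.indicator fun _ => 1) t q.2) ^ r * ENNReal.ofReal (1 / q.2 ^ 2)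

/-- 20 Hi3: the classes of high points for `2 < p`. -/
def StHi3 : Prop := ∀ (lam b p s : ℝ) (U : ℝ → ℝ), Hyp lam b p s U → 2 < p → (p - 2) / 2 < s →
  ∃ M0 C θ : ℝ, 0 ≤ M0 ∧ 1 ≤ C ∧ 0 < θ ∧ θ < 1 ∧
  ∀ (g : ℂ → ℂ) (t0 R m : ℝ), An2 t0 g → 0 < R → M0 ≤ m →
    ∫⁻ t, (∫⁻ q in cone lam t ∩ (HW U lam b p 0 m ∩ LW U lam b p 0 (m + 1)) ∩
      {q : ℝ × ℝ | q.2 ≤ R}, (DD g q) ^ 2 * ENNReal.ofReal (1 / q.2 ^ 2)) ^ (p / 2) ∂(wm U) ≤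
      ENNReal.ofReal (C * Real.exp (θ * m)) *
        ∫⁻ q in HW U lam b p 0 m ∩ {q : ℝ × ℝ | q.2 ≤ R},
          (DD g q) ^ p * wm U (Sd lam q) * ENNReal.ofReal (1 / q.2 ^ 2)

/-- 21 HiP: the high part. -/
def StHiP : Prop := ∀ (lam b p s : ℝ) (U : ℝ → ℝ), Hyp lam b p s U → (p - 2) / 2 < s →
  ∀ Cb : ℝ, 0 < Cb → ∃ m C : ℝ, 0 ≤ m ∧ 1 ≤ C ∧
  ∀ (g : ℂ → ℂ) (Nf : ℝ → ℝ≥0∞) (t0 R : ℝ), Dm b Cb t0 g Nf → 0 < R →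
    ∫⁻ t, (∫⁻ q in cone lam t ∩ HW U lam b p 0 m ∩ {q : ℝ × ℝ | q.2 ≤ R},
      (DD g q) ^ 2 * ENNReal.ofReal (1 / q.2 ^ 2)) ^ (p / 2) ∂(wm U) ≤
      ENNReal.ofReal C * ∫⁻ t, (Nf t) ^ p ∂(wm U)

/-! ### The low part of the area function -/

/-- 22 GLA: good lambda inequality without covering argument. -/
def StGLA : Prop := ∀ a b' : ℝ, 0 < a → a < b' → ∃ C : ℝ, 1 ≤ C ∧
  ∀ (ν : Measure ℝ) (_ : SFinite ν) (φ : ℝ × ℝ → ℝ≥0∞) (E : Set ℝ) (R B κ c : ℝ),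
    Measurable φ → IsClosed E → 0 < R → 0 ≤ B → 0 ≤ κ → 0 ≤ c → C * c ≤ 1 →
    (∀ q : ℝ × ℝ, φ q ≠ 0 → 0 < q.2 ∧ q.2 ≤ R) →
    (∀ q : ℝ × ℝ, 0 < q.2 → (∃ x ∈ E, |q.1 - x| ≤ b' * q.2) →
      φ q ≤ ENNReal.ofReal (c / q.2 ^ 2)) →
    (∀ q : ℝ × ℝ, φ q ≠ 0 → (E ∩ Sd a q).Nonempty →
      ν {t ∈ E ∩ Sd a q | ENNReal.ofReal B <
        ∫⁻ w in cone a t ∩ {w : ℝ × ℝ | w.2 ≤ q.2}, φ w} ≤ ENNReal.ofReal κ * ν (Sd a q)) →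
    ν {t ∈ E | ENNReal.ofReal (B + 4) < ∫⁻ w in cone a t, φ w} ≤
      ENNReal.ofReal (4 * κ) * ν {t | 1 ≤ ∫⁻ w in cone a t, φ w}

/-- 23 SLa: the local estimate in Lebesgue measure. -/
def StSLa : Prop := ∀ lam b : ℝ, 0 < lam → lam < b → ∃ C : ℝ, 1 ≤ C ∧
  ∀ (f : ℝ → ℝ) (t0 σ : ℝ) (q : ℝ × ℝ), Admissible f → 0 < t0 → 0 < σ → 0 < q.2 →
    ∫⁻ t in {t ∈ Sd lam q | ntMax b f t ≤ ENNReal.ofReal σ},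
      (∫⁻ w in cone lam t ∩ {w : ℝ × ℝ | w.2 ≤ q.2},
        ENNReal.ofReal (‖dschw f (pt w + t0 * I)‖ ^ 2)) ≤ ENNReal.ofReal (C * σ ^ 2 * q.2)

/-- 24 SL: the low part of the area function. -/
def StSL : Prop := ∀ (lam b p s : ℝ) (U : ℝ → ℝ), Hyp lam b p s U → ∀ m : ℝ, 0 ≤ m →
  ∃ C : ℝ≥0, ∀ (f : ℝ → ℝ) (t0 R : ℝ), Admissible f → 0 < t0 → 0 < R →
    ∫⁻ t, (∫⁻ w in cone lam t ∩ LW U lam b p 0 m ∩ {w : ℝ × ℝ | w.2 ≤ R},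
      ENNReal.ofReal (‖dschw f (pt w + t0 * I)‖ ^ 2)) ^ (p / 2) ∂(wm U) ≤
      C * ∫⁻ t, (ntMax b f t) ^ p ∂(wm U)

/-! ### Assembly of the sufficiency -/

/-- 25 DomF: the domination for the functions of the problem. -/
def StDomF : Prop := ∀ b : ℝ, 0 < b → ∃ Cb : ℝ, 0 < Cb ∧ ∀ (f : ℝ → ℝ) (t0 : ℝ),
  Admissible f → 0 < t0 → Dm b Cb t0 (fun w => dschw f (w + t0 * I)) (ntMax b f)

/-- 26 Lim: passage to the limit. -/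
def StLim : Prop := ∀ (lam p : ℝ) (U f : ℝ → ℝ) (A : ℝ≥0∞), 0 < lam → 0 < p → IsWeight U →
  Admissible f →
  (∀ t0 R : ℝ, 0 < t0 → 0 < R → ∫⁻ t, (∫⁻ w in cone lam t ∩ {w : ℝ × ℝ | w.2 ≤ R},
    ENNReal.ofReal (‖dschw f (pt w + t0 * I)‖ ^ 2)) ^ (p / 2) ∂(wm U) ≤ A) →
  ∫⁻ x, (areaFn lam f x) ^ p * ENNReal.ofReal (U x) ≤ A

/-- 27 Suff: sufficiency. -/
def StSuff : Prop := ∀ (lam b p s : ℝ) (U : ℝ → ℝ), Hyp lam b p s U → (p - 2) / 2 < s →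
  Star lam b p U

/-! ### Necessity -/

/-- 28 OscK: the multilevel oscillation at a small open set, explicit dependence on `n`. -/
def StOscK : Prop := ∀ lam B : ℝ, 0 < lam → 0 ≤ B → ∃ τ K : ℝ, 0 < τ ∧ 2 ≤ K ∧
  ∀ (n : ℕ) (x0 r : ℝ) (E : Set ℝ), 0 < r → IsOpen E → E ⊆ Ioo (x0 - 2 * r) (x0 + 2 * r) →
    volume.real E ≤ r / (2 * K ^ n) → ∃ f : ℝ → ℝ, Measurable f ∧ (∀ t, |f t| ≤ 1) ∧
    ∀ (G : ℂ → ℂ) (g : ℝ), DifferentiableOn ℂ G {w : ℂ | 0 < w.im} → 0 ≤ g →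
      (∀ x ∈ E, ∀ z y : ℝ, 0 < y → y ≤ r → |z - x| ≤ lam * y →
        g ≤ ‖G (z + y * I)‖ ∧ ‖deriv G (z + y * I)‖ ≤ B / r * ‖G (z + y * I)‖) →
      ∀ x ∈ E, ∃ ε0 : ℝ, 0 < ε0 ∧ ∀ ε : ℝ, 0 < ε → ε < ε0 →
        ENNReal.ofReal (n * (τ * g ^ 2)) ≤ ∫⁻ q in cone lam x,
          ENNReal.ofReal (‖deriv (fun w : ℂ => Complex.exp (schw f w) * G w)
            (q.1 + (q.2 + ε : ℝ) * I)‖ ^ 2)

/-- 29 NecA: the estimate for one small piece. -/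
def StNecA : Prop := ∀ (C0 : ℝ≥0) (lam b p : ℝ), 0 < lam → lam < b → 0 < p →
  ∃ C K : ℝ, 1 ≤ C ∧ 2 ≤ K ∧
  ∀ (U : ℝ → ℝ) (F : ℂ → ℂ) (q : ℝ × ℝ) (ρ x : ℝ) (O : Set ℝ) (n : ℕ), IsWeight U →
    StarC C0 lam b p U → An F → 0 < q.2 → 0 < ρ → ρ ≤ 1 / 2 → x ∈ Sd lam q →
    (∀ ζ : ℂ, ‖ζ - pt q‖ ≤ ρ * q.2 → 1 / 2 ≤ ‖F ζ‖ ∧ ‖deriv F ζ‖ ≤ 1 / (ρ * q.2)) →
    IsOpen O → O ⊆ Ioo (x - 2 * (ρ * q.2 / (3 + lam))) (x + 2 * (ρ * q.2 / (3 + lam))) →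
    volume.real O ≤ ρ * q.2 / (3 + lam) / (2 * K ^ n) →
    wm U O * ENNReal.ofReal ((n : ℝ) ^ (p / 2)) ≤ ENNReal.ofReal C * NI U F b p

/-- 30 NecK: necessity. -/
def StNecK : Prop := ∀ (lam b p : ℝ) (U : ℝ → ℝ), 0 < lam → lam < b → 1 < p → IsWeight U →
  Star lam b p U → ∃ C : ℝ≥0, NS lam b p ((p - 1) / 2) C U

end Pool.Agent.Work.MP_055a27_an.Kp
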